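import Pool.Agent.Lib.MP_b6f35e_al.TT.UV.Defs

/-!
# Theorem DT (MP_b6f35e_al, Q2): definitions (helper81, helper31, helper76)

`AdmT`: the admissible sequences. `AmE K L h u f`: the amalgam of `⟨K, u⟩` and `⟨L, f⟩` over `L`, `ofE`: the inclusions of the
two factors, `toE`: the homomorphism to `G`. `LiftE`: the pair `ψ`, `χ` is the image of a nilpotent pair over the group ring
of the amalgam with supports in `K u`, `L f`. `DihF`: the forms of the infinite dihedral subgroups.
-/

set_option autoImplicit false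
set_option linter.unusedSectionVars false

namespace Pool.Agent.Lib.MPb6f35e.TT.AR

open Matrix Monoid Pool.Agent.Lib.MPb6f35e.TT.UV

/-- The nilpotent forms over `R[E]` with supports in `C`, `D`: `UF ψ 0 χ` with `nu` nilpotent. -/
def NilE {R E : Type} [Ring R] [StarRing R] [Group E] (C D : Set E) (ε : ℤˣ) (n : ℕ)
    (ψ χ : Matrix (Fin n) (Fin n) (MonoidAlgebra R E)) : Prop :=
  SuppIn C ψ ∧ SuppIn D χ ∧ IsNilpotent (nu ε (ψ + (ε : ℤ) • ψᴴ) 0 (χ + (ε : ℤ) • χᴴ))

/-- The image of a matrix under the homomorphism `R[E] → R[G]` of a homomorphism `E → G`. -/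
noncomputable def mapE {R E G : Type} [Ring R] [Group E] [Group G] (φ : E →* G) {n : ℕ}
    (M : Matrix (Fin n) (Fin n) (MonoidAlgebra R E)) : Matrix (Fin n) (Fin n) (MonoidAlgebra R G) :=
  M.map (MonoidAlgebra.mapDomainRingHom R φ)

/-- The images of the nilpotent forms over `R[E]` with supports in `C`, `D`. -/
def ImgE {R E G : Type} [Ring R] [StarRing R] [Group E] [Group G] (φ : E →* G) (C D : Set E)
    (ε : ℤˣ) (n : ℕ) (ψ χ : Matrix (Fin n) (Fin n) (MonoidAlgebra R G)) : Prop :=
  ∃ ψ' χ' : Matrix (Fin n) (Fin n) (MonoidAlgebra R E),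
    NilE C D ε n ψ' χ' ∧ mapE φ ψ' = ψ ∧ mapE φ χ' = χ

/-- The group structure of an amalgam. -/
noncomputable def grpE {ι H : Type} {G : ι → Type} [∀ i, Group (G i)] [Group H]
    (φ : ∀ i, H →* G i) : Group (PushoutI φ) :=
  inferInstance

section Defs

variable {G : Type} [Group G]

/-- The two groups `⟨K, u⟩` and `⟨L, f⟩`. -/
def FacT (K L : Subgroup G) (u f : G) : Bool → Subgroup G
  | true => K ⊔ Subgroup.zpowers u
  | false => L ⊔ Subgroup.zpowers f

theorem facT_le {K L : Subgroup G} (h : L ≤ K) (u f : G) : ∀ b, L ≤ FacT K L u f b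
  | true => h.trans le_sup_left
  | false => le_sup_left

/-- The inclusion of `L` in `⟨K, u⟩` and `⟨L, f⟩`. -/
def incE (K L : Subgroup G) (h : L ≤ K) (u f : G) (b : Bool) : L →* FacT K L u f b :=
  Subgroup.inclusion (facT_le h u f b)

/-- The amalgam of `⟨K, u⟩` and `⟨L, f⟩` over `L`. -/
def AmE (K L : Subgroup G) (h : L ≤ K) (u f : G) : Type :=
  PushoutI (incE K L h u f)

noncomputable instance instGroupAmE (K L : Subgroup G) (h : L ≤ K) (u f : G) :
    Group (AmE K L h u f) :=
  grpE (incE K L h u f)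

/-- The homomorphisms of the two factors to the amalgam. -/
noncomputable def ofE (K L : Subgroup G) (h : L ≤ K) (u f : G) (b : Bool) :
    FacT K L u f b →* AmE K L h u f :=
  PushoutI.of (φ := incE K L h u f) b

/-- The homomorphism from the amalgam to `G` which is the inclusion on the factors. -/
noncomputable def toE (K L : Subgroup G) (h : L ≤ K) (u f : G) : AmE K L h u f →* G :=
  PushoutI.lift (φ := incE K L h u f) (fun b => (FacT K L u f b).subtype) L.subtype fun _ => rfl

/-- The subset `F` of a factor, as a subset of the amalgam. -/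
def InE (K L : Subgroup G) (h : L ≤ K) (u f : G) (b : Bool) (F : Set G) : Set (AmE K L h u f) :=
  {z | ∃ s : FacT K L u f b, (s : G) ∈ F ∧ z = ofE K L h u f b s}

/-- The coset `K u`. -/
def CstE (K : Subgroup G) (u : G) : Set G := {a | ∃ k ∈ K, a = k * u}

/-- The pair `ψ`, `χ` is the image of a nilpotent pair over the group ring of the amalgam, with supports in `K u`
(in the first factor) and `L f` (in the second factor). -/
def LiftE {R : Type} [Ring R] [StarRing R] (K L : Subgroup G) (h : L ≤ K) (u f : G) (ε : ℤˣ)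
    (n : ℕ) (ψ χ : Matrix (Fin n) (Fin n) (MonoidAlgebra R G)) : Prop :=
  ImgE (toE K L h u f) (InE K L h u f true (CstE K u)) (InE K L h u f false (CstE L f)) ε n ψ χ

end Defs

section AdmD

/-- The stabilizer of `x` and `y`. -/
abbrev SbT (G : Type) {V : Type} [Group G] [MulAction G V] (x y : V) : Subgroup G :=
  MulAction.stabilizer G x ⊓ MulAction.stabilizer G y

/-- Admissible sequences. -/
structure AdmT {G V : Type} [Group G] [MulAction G V] (T : SimpleGraph V) (v w : V) (x y : ℕ → V)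
    (u : ℕ → G) : Prop where
  x0 : x 0 = v
  y0 : y 0 = w
  path : ∀ i, T.dist (x (i + 1)) (y (i + 1)) =
    T.dist (x (i + 1)) (x i) + T.dist (x i) (y i) + T.dist (y i) (y (i + 1))
  grow : ∀ i, T.dist (x i) (y i) < T.dist (x (i + 1)) (y (i + 1))
  exch : ∀ i, 1 ≤ i → u i • x i = y i ∧ u i • y i = x i
  one : ∀ i, 1 ≤ i → x (i + 1) = x i ∨ y (i + 1) = y i
  rep : ∀ i, 1 ≤ i → ∃ k ∈ SbT G (x i) (y i), u (i + 2) = k * u i

end AdmD

/-- The forms `(r t, 1; 0, s u)` of the infinite dihedral subgroups generated by elements `t`, `u` of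
order two, `r = - ε r^*`, `s = - ε s^*`. -/
inductive DihF {R G : Type} [Ring R] [StarRing R] [Group G] (ε : ℤˣ) :
    ∀ n : ℕ, Matrix (Fin n) (Fin n) (MonoidAlgebra R G) →
      Matrix (Fin n) (Fin n) (MonoidAlgebra R G) → Prop
  | mk (r s : R) (t u : G) : t * t = 1 → u * u = 1 → (∀ n : ℕ, 1 ≤ n → (t * u) ^ n ≠ 1) →
      r + (ε : ℤ) • star r = 0 → s + (ε : ℤ) • star s = 0 →
      DihF ε 1 (Matrix.of fun _ _ : Fin 1 => MonoidAlgebra.single t r)
        (Matrix.of fun _ _ : Fin 1 => MonoidAlgebra.single u s)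

end Pool.Agent.Lib.MPb6f35e.TT.AR
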