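import Pool.Agent.Lib.MP_8a3537_gt.AR.LPP
import Pool.Agent.Lib.MP_b6f35e_al.TT.AR.DTD

/-!
# The bridge between the two copies of the definitions (helper76)

The definitions of `TT/UV/Defs.lean` are copies of the ones of `MP_8a3537_gt/UV/Defs.lean`. `lppT`: the theorem
`lpp_rc` of `MP_8a3537_gt/AR/LPP.lean` (helper28) for the copy.
-/

set_option autoImplicit false
set_option linter.unusedSectionVars false

namespace Pool.Agent.Lib.MPb6f35e.TT.AR

open Matrix Pool.Agent.Lib.MPb6f35e.TT.UV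

attribute [-instance] Pool.Agent.Lib.MP8a3537.UV.instStarMA

/-- The nilpotent forms with supports in `K i * u i`, `K (i + 1) * u (i + 1)` are stably hyperbolic if `K (i + 1)` is
good and these sets contain no element of order at most two. -/
theorem lppT (R G V : Type) [Ring R] [StarRing R] [Group G] [MulAction G V] (T : SimpleGraph V)
    (v w : V) (hT : T.IsTree) (hact : ∀ (g : G) (x y : V), T.Adj x y → T.Adj (g • x) (g • y))
    (x y : ℕ → V) (u : ℕ → G) (h : AdmT T v w x y u) (i : ℕ) (hi : 1 ≤ i)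
    (n1 : ∀ a ∈ {a : G | ∃ k ∈ SbT G (x i) (y i), a = k * u i}, a * a ≠ 1)
    (n2 : ∀ a ∈ {a : G | ∃ k ∈ SbT G (x (i + 1)) (y (i + 1)), a = k * u (i + 1)}, a * a ≠ 1)
    (hR : ∃ d : ℕ, Pool.Agent.Lib.MP8a3537.DG.RC
      (MonoidAlgebra R ↥(SbT G (x (i + 1)) (y (i + 1)))) d)
    (ε : ℤˣ) (n : ℕ) (ψ χ : Matrix (Fin n) (Fin n) (MonoidAlgebra R G))
    (hψ : SuppIn {a | ∃ k ∈ SbT G (x i) (y i), a = k * u i} ψ)
    (hχ : SuppIn {a | ∃ k ∈ SbT G (x (i + 1)) (y (i + 1)), a = k * u (i + 1)} χ)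
    (hn : IsNilpotent (nu ε (ψ + (ε : ℤ) • ψᴴ) 0 (χ + (ε : ℤ) • χᴴ))) :
    StablyHyperbolic ε (UF ψ 0 χ) := by
  have h' : Pool.Agent.Lib.MP8a3537.AR.AdmT T v w x y u :=
    ⟨h.x0, h.y0, h.path, h.grow, h.exch, h.one, h.rep⟩
  exact Pool.Agent.Lib.MP8a3537.AR.lpp_rc R G V T v w hT hact x y u h' i hi n1 n2 hR ε n ψ χ hψ hχ
    hn

end Pool.Agent.Lib.MPb6f35e.TT.AR
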