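import Pool.Agent.Lib.MP_b6f35e_al.TT.A3

/-!
# The amalgam of an admissible sequence with `K i = K (i + 1)` is a subgroup (MP_8a3537_gt, folder AR, helper81)

`inj_admT`: if the stabilizers `K i`, `K (i + 1)` of an admissible sequence are equal, then the homomorphism from the
amalgam of `⟨K i, u i⟩` and `⟨K (i + 1), u (i + 1)⟩` to the group is injective.
-/

set_option autoImplicit false
set_option linter.unusedSectionVars false

namespace Pool.Agent.Lib.MPb6f35e.TT.AR

open Matrix Monoid Pool.Agent.Lib.MPb6f35e.TT.UV Pool.Agent.Lib.MPb6f35e.TT.RO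
open Pool.Agent.Lib.MPb6f35e.TT.ROK

namespace DI2M

section NF

variable {G : Type} [Group G] (X : Dt G)

/-- The elements `h w`, `h` in `L`, `w` an alternating product of letters. -/
def Dt.NF (z : X.D) : Prop := ∃ (h : X.L) (k : ℕ) (s : Bool), ∃ w ∈ X.W k s, z = PushoutI.base X.f h * w

theorem Dt.letter {b : Bool} (x : X.S b) (hx : (x : G) * (X.g b)⁻¹ ∈ X.K b) (h : X.L) :
    ((x * X.f b h : X.S b) : G) * (X.g b)⁻¹ ∈ X.K b := by
  have e : ((x * X.f b h : X.S b) : G) * (X.g b)⁻¹ =
      ((x : G) * (X.g b)⁻¹) * (X.g b * (h : G) * (X.g b)⁻¹) := by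
    show ((x : G) * h) * _ = _
    group
  rw [e]
  exact mul_mem hx (X.hN b _ (X.hL b h.2)).1

theorem Dt.nf_of (hK : ∀ b, X.K b = X.L) (b : Bool) (x : X.S b) {z : X.D} (hz : X.NF z) :
    X.NF (PushoutI.of b x * z) := by
  obtain ⟨h, k, s, w, hw, rfl⟩ := hz
  rcases x.2 with hx | hx
  · -- `x ∈ L`
    have hxL : (x : G) ∈ X.L := by rw [← hK b]; exact hx
    refine ⟨⟨x, hxL⟩ * h, k, s, w, hw, ?_⟩
    have e : PushoutI.of b x = PushoutI.base X.f ⟨x, hxL⟩ :=
      PushoutI.of_apply_eq_base X.f b ⟨x, hxL⟩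
    rw [e, map_mul, mul_assoc]
  · have hl := X.letter x hx h
    have e1 : PushoutI.of b x * (PushoutI.base X.f h * w) = PushoutI.of b (x * X.f b h) * w := by
      rw [map_mul, PushoutI.of_apply_eq_base, mul_assoc]
    rw [e1]
    cases k with
    | zero =>
      refine ⟨1, 1, b, PushoutI.of b (x * X.f b h) * w, ⟨_, ⟨_, hl, rfl⟩, w, hw, rfl⟩, ?_⟩
      rw [map_one, one_mul]
    | succ k =>
      by_cases hs : s = b
      · subst hs
        obtain ⟨_, ⟨y, hy, rfl⟩, w1, hw1, rfl⟩ := hw
        have h2 : ((x * X.f s h * y : X.S s) : G) ∈ X.L := by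
          have h3 : ((x * X.f s h * y : X.S s) : G) ∈ X.K s := two hl hy (X.hN s) (X.h2 s)
          exact (hK s).le h3
        refine ⟨⟨_, h2⟩, k, !s, w1, hw1, ?_⟩
        have e : PushoutI.of s (x * X.f s h * y) = PushoutI.base X.f ⟨_, h2⟩ :=
          PushoutI.of_apply_eq_base X.f s ⟨_, h2⟩
        rw [← mul_assoc, ← map_mul, e]
      · have hs' : s = !b := by
          cases s <;> cases b <;> simp_all
        subst hs'
        refine ⟨1, k + 2, b, PushoutI.of b (x * X.f b h) * w, ⟨_, ⟨_, hl, rfl⟩, w, hw, rfl⟩, ?_⟩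
        rw [map_one, one_mul]

theorem Dt.nf_mul (hK : ∀ b, X.K b = X.L) (x : X.D) : ∀ z : X.D, X.NF z → X.NF (x * z) := by
  induction x using PushoutI.induction_on with
  | of b x => exact fun z hz => X.nf_of hK b x hz
  | base h =>
    rintro z ⟨h', k, s, w, hw, rfl⟩
    exact ⟨h * h', k, s, w, hw, by rw [map_mul, mul_assoc]⟩
  | mul x y hx hy =>
    intro z hz
    rw [mul_assoc]
    exact hx _ (hy _ hz)

theorem Dt.nf (hK : ∀ b, X.K b = X.L) (z : X.D) : X.NF z := by
  have h := X.nf_mul hK z 1 ⟨1, 0, true, 1, rfl, by rw [map_one, one_mul]⟩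
  rwa [mul_one] at h

variable {V : Type} [MulAction G V] {P : Bool → Set V} {m : Bool → V → ℕ}

theorem Dt.grow (hP : ∀ s, ∀ z ∈ X.LD s, ∀ v ∈ P (!s), X.p z • v ∈ P s)
    (hm1 : ∀ z ∈ X.LD true, ∀ v ∈ P false, m false v ≤ m true (X.p z • v))
    (hm2 : ∀ z ∈ X.LD false, ∀ v ∈ P true, m true v < m false (X.p z • v)) (j : ℕ) :
    ∀ s, ∀ z ∈ X.W (2 * j) s, ∀ v ∈ P s, X.p z • v ∈ P s ∧ m s v + j ≤ m s (X.p z • v) := by
  induction j with
  | zero =>
    intro s z hz v hv
    rw [show z = 1 from hz, map_one, one_smul]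
    exact ⟨hv, le_rfl⟩
  | succ j ih =>
    intro s z hz v hv
    obtain ⟨a, ha, z1, hz1, rfl⟩ : ∃ a ∈ X.LD s, ∃ z1 ∈ X.W (2 * j + 1) (!s), z = a * z1 := hz
    obtain ⟨b, hb, z2, hz2, rfl⟩ : ∃ b ∈ X.LD (!s), ∃ z2 ∈ X.W (2 * j) (!(!s)), z1 = b * z2 := hz1
    rw [Bool.not_not] at hz2
    obtain ⟨h1, h2⟩ := ih s z2 hz2 v hv
    have h1' : X.p z2 • v ∈ P (!(!s)) := by rw [Bool.not_not]; exact h1
    have h3 := hP (!s) b hb _ h1'
    have h4 := hP s a ha _ h3
    rw [map_mul, map_mul, mul_smul, mul_smul]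
    refine ⟨h4, ?_⟩
    cases s with
    | true =>
      have h5 := hm2 b hb _ h1
      have h6 := hm1 a ha _ h3
      omega
    | false =>
      have h5 := hm1 b hb _ h1
      have h6 := hm2 a ha _ h3
      omega

theorem Dt.inj_p (hK : ∀ b, X.K b = X.L)
    (hP : ∀ s, ∀ z ∈ X.LD s, ∀ v ∈ P (!s), X.p z • v ∈ P s)
    (hm1 : ∀ z ∈ X.LD true, ∀ v ∈ P false, m false v ≤ m true (X.p z • v))
    (hm2 : ∀ z ∈ X.LD false, ∀ v ∈ P true, m true v < m false (X.p z • v))
    (hne : ∀ s, (P s).Nonempty) (hdis : ∀ s, ∀ v ∈ P s, v ∉ P (!s)) :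
    Function.Injective X.p := by
  rw [injective_iff_map_eq_one]
  intro z hz
  obtain ⟨h, k, s, w, hw, rfl⟩ := X.nf hK z
  cases k with
  | zero =>
    rw [show w = 1 from hw, mul_one, X.p_base] at hz
    have : h = 1 := Subtype.ext hz
    rw [this, show w = 1 from hw, map_one, mul_one]
  | succ k =>
    exfalso
    have hw' := X.base_W h hw
    obtain ⟨j, hj | hj⟩ : ∃ j, k = 2 * j ∨ k = 2 * j + 1 := ⟨k / 2, by omega⟩
    · subst hj
      obtain ⟨a, ha, z1, hz1, e⟩ := hw'
      obtain ⟨v, hv⟩ := hne (!s)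
      obtain ⟨h1, -⟩ := X.grow hP hm1 hm2 j (!s) z1 hz1 v hv
      have h3 := hP s a ha _ h1
      rw [← mul_smul, ← map_mul, ← e, hz, one_smul] at h3
      exact hdis s v h3 hv
    · subst hj
      obtain ⟨v, hv⟩ := hne s
      obtain ⟨-, h2⟩ := X.grow hP hm1 hm2 (j + 1) s _ hw' v hv
      rw [hz, one_smul] at h2
      omega

/-- The injectivity for the other form of the amalgam. -/
theorem inj_S (X : Dt G) (S : Bool → Subgroup G) (hS : S = X.S) (hLS : ∀ b, X.L ≤ S b)
    (h : Function.Injective X.p) :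
    Function.Injective (PushoutI.lift (φ := fun b => Subgroup.inclusion (hLS b))
      (fun b => (S b).subtype) X.L.subtype fun _ => rfl) := by
  subst hS
  exact h

end NF

/-- The amalgam is a subgroup, for `g` which exchanges `x`, `y`, and `f` which exchanges `y` and `f y`, `x` between
them. -/
theorem inj_cf {G V : Type} [Group G] [MulAction G V] (d : V → V → ℕ)
    (hd : TM G d) (x y : V) (g f : G) (K L : Subgroup G) (mK : ∀ k, k ∈ K ↔ k • x = x ∧ k • y = y)
    (mL : ∀ k, k ∈ L ↔ k • y = y ∧ k • f • y = f • y) (hLK : L ≤ K) (hKL : K ≤ L) (hgx : g • x = y)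
    (hgy : g • y = x) (ffy : f • f • y = y) (hb : d y (f • y) = d y x + d x (f • y))
    (ne : x ≠ y) (hlt : d y x < d y (f • y)) : Function.Injective (toGT K L hLK g f) := by
  have hff2 : f * f ∈ L := by
    rw [mL, mul_smul, mul_smul, ffy]
    exact ⟨rfl, rfl⟩
  have ffx : f • f • x = x := by
    have := ((mK _).1 (hLK hff2)).1
    rwa [mul_smul] at this
  have gi : g⁻¹ • x = y ∧ g⁻¹ • y = x :=
    ⟨by rw [inv_smul_eq_iff, hgy], by rw [inv_smul_eq_iff, hgx]⟩
  have fi : f⁻¹ • y = f • y := by rw [inv_smul_eq_iff, ffy]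
  have cf : Cf d x y g f := ⟨ne, hgx, hgy, ffx, ffy, hb⟩
  have hN1 : Ns K g := by
    intro k hk
    rw [mK] at hk
    constructor
    · rw [mK]
      simp only [mul_smul]
      rw [gi.1, gi.2, hk.1, hk.2]
      exact ⟨hgy, hgx⟩
    · rw [mK]
      simp only [mul_smul]
      rw [hgx, hgy, hk.1, hk.2]
      exact ⟨gi.2, gi.1⟩
  have hN2 : Ns L f := by
    intro k hk
    rw [mL] at hk
    constructor
    · rw [mL]
      simp only [mul_smul]
      rw [fi, hk.2, ffy, inv_smul_smul, hk.1]
      exact ⟨rfl, rfl⟩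
    · rw [mL]
      simp only [mul_smul]
      rw [ffy, hk.1, hk.2, inv_smul_smul, fi]
      exact ⟨rfl, rfl⟩
  have hg2 : g * g ∈ K := by
    rw [mK, mul_smul, mul_smul]
    exact ⟨by rw [hgx, hgy], by rw [hgy, hgx]⟩
  obtain ⟨X, hX1, hX2, hX3, hX4, hX5⟩ : ∃ X : Dt G, X.K true = K ∧ X.K false = L ∧
      X.g true = g ∧ X.g false = f ∧ X.L = L :=
    ⟨{ K := fun b => match b with
        | true => K
        | false => L
       g := fun b => match b with
        | true => g
        | false => f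
       L := L
       hL := fun b => by
        cases b
        · exact le_rfl
        · exact hLK
       hN := fun b => by
        cases b
        · exact hN2
        · exact hN1
       h2 := fun b => by
        cases b
        · exact hff2
        · exact hg2 }, rfl, rfl, rfl, rfl, rfl⟩
  obtain ⟨P, hPt, hPf⟩ : ∃ P : Bool → Set V, P true = {p | d x p = d x y + d y p} ∧
      P false = {p | d y p = d y x + d x p} :=
    ⟨fun b => match b with
      | true => {p | d x p = d x y + d y p}
      | false => {p | d y p = d y x + d x p}, rfl, rfl⟩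
  obtain ⟨m, hmt, hmf⟩ : ∃ m : Bool → V → ℕ, m true = d x ∧ m false = d y :=
    ⟨fun b => match b with
      | true => d x
      | false => d y, rfl, rfl⟩
  subst hX1
  subst hX5
  subst hX3
  subst hX4
  have pl : ∀ s, ∀ z ∈ X.LD s, ∃ k ∈ X.K s, X.p z = k * X.g s := by
    rintro s z ⟨a, ha, rfl⟩
    refine ⟨_, ha, ?_⟩
    rw [X.p_of]
    group
  -- letters of the second kind
  have fr : ∀ z ∈ X.LD false, ∀ v ∈ P true,
      d y (X.p z • v) = d y (X.g false • y) + d y v ∧
      d y (X.p z • v) = d y x + d x (X.p z • v) := by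
    intro z hz v hv
    obtain ⟨k, hk, e⟩ := pl false z hz
    rw [hX2] at hk
    have k3 := ((mL k).1 hk).2
    have k1 := (mK _).1 (hLK hk)
    rw [hPt] at hv
    have h1 := far hd cf hv
    have i0 := hd.iso (X.g false) y v
    have i1 := hd.iso k y (X.g false • v)
    have i2 := hd.iso k (X.g false • y) (X.g false • v)
    have i3 := hd.iso k x (X.g false • v)
    rw [k1.2] at i1
    rw [k3] at i2
    rw [k1.1] at i3
    rw [e, mul_smul]
    omega
  -- letters of the first kind
  have gr : ∀ z ∈ X.LD true, ∀ v ∈ P false,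
      d x (X.p z • v) = d x y + d y (X.p z • v) ∧ d x (X.p z • v) = d y v := by
    intro z hz v hv
    obtain ⟨k, hk, e⟩ := pl true z hz
    rw [mK] at hk
    rw [hPf] at hv
    have hv' : d y v = d y x + d x v := hv
    rw [e]
    have i1 := hd.iso (k * X.g true) y v
    have i2 := hd.iso (k * X.g true) x v
    have e1 : (k * X.g true) • y = x := by rw [mul_smul, hgy, hk.1]
    have e2 : (k * X.g true) • x = y := by rw [mul_smul, hgx, hk.2]
    rw [e1] at i1
    rw [e2] at i2
    have := hd.cm x y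
    omega
  have hfac : FacT (X.K true) X.L (X.g true) (X.g false) = X.S := by
    funext b
    cases b with
    | true => exact ag_eq (X.hN true) (X.h2 true)
    | false =>
      show X.L ⊔ Subgroup.zpowers (X.g false) = _
      rw [← hX2]
      exact ag_eq (X.hN false) (X.h2 false)
  refine inj_S X _ hfac (facT_le hLK (X.g true) (X.g false)) ?_
  refine X.inj_p (P := P) (m := m) ?_ ?_ ?_ ?_ ?_ ?_
  · intro b
    cases b
    · exact hX2
    · exact le_antisymm hKL hLK
  · intro s z hz v hv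
    cases s with
    | false =>
      rw [hPf]
      exact (fr z hz v hv).2
    | true =>
      rw [hPt]
      exact (gr z hz v hv).1
  · intro z hz v hv
    rw [hmt, hmf]
    exact (gr z hz v hv).2.ge
  · intro z hz v hv
    rw [hmt, hmf]
    have h1 := (fr z hz v hv).1
    rw [hPt] at hv
    have hv' : d x v = d x y + d y v := hv
    have := hd.cm x y
    omega
  · intro s
    cases s with
    | false =>
      refine ⟨x, ?_⟩
      rw [hPf]
      show d y x = d y x + d x x
      rw [(hd.d0 x x).2 rfl, add_zero]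
    | true =>
      refine ⟨y, ?_⟩
      rw [hPt]
      show d x y = d x y + d y y
      rw [(hd.d0 y y).2 rfl, add_zero]
  · have n0 : d x y ≠ 0 := fun h => ne ((hd.d0 x y).1 h)
    have hc := hd.cm x y
    have key : ∀ v, ¬ (v ∈ P true ∧ v ∈ P false) := by
      rintro v ⟨h1, h2⟩
      rw [hPt] at h1
      rw [hPf] at h2
      have h1' : d x v = d x y + d y v := h1
      have h2' : d y v = d y x + d x v := h2
      omega
    intro s v hv hv'
    cases s with
    | true => exact key v ⟨hv, hv'⟩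
    | false => exact key v ⟨hv', hv⟩

end DI2M

section AdmT

variable {G V : Type} [Group G] [MulAction G V] {T : SimpleGraph V} {v w : V} {x y : ℕ → V}
  {u : ℕ → G}

open DI2M in
/-- **The amalgam is a subgroup of `G` if `K i = K (i + 1)`.** -/
theorem inj_admT (hd : TM G (V := V) T.dist) (h : AdmT T v w x y u) (i : ℕ) (hi : 1 ≤ i)
    (hle : SbT G (x (i + 1)) (y (i + 1)) ≤ SbT G (x i) (y i))
    (hge : SbT G (x i) (y i) ≤ SbT G (x (i + 1)) (y (i + 1))) :
    Function.Injective (toGT (SbT G (x i) (y i)) (SbT G (x (i + 1)) (y (i + 1))) hle (u i)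
      (u (i + 1))) := by
  obtain ⟨e1, e2⟩ := h.exch i hi
  obtain ⟨e3, e4⟩ := h.exch (i + 1) (by omega)
  have hp := h.path i
  have hg := h.grow i
  rcases h.one i hi with e | e
  · -- `x (i + 1) = x i`
    rw [e] at e3 e4 hp hg
    refine inj_cf T.dist hd (y i) (x i) (u i) (u (i + 1)) _ _ ?_ ?_ hle hge e2 e1 ?_ ?_
      (ne_of hd h i hi).symm ?_
    · intro k
      rw [Subgroup.mem_inf, MulAction.mem_stabilizer_iff, MulAction.mem_stabilizer_iff, and_comm]
    · intro k
      rw [Subgroup.mem_inf, MulAction.mem_stabilizer_iff, MulAction.mem_stabilizer_iff, e, e3]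
    · rw [e3, e4]
    · rw [e3]
      have := hd.d0 (x i) (x i)
      have h0 : T.dist (x i) (x i) = 0 := this.2 rfl
      omega
    · rw [e3]
      exact hg
  · -- `y (i + 1) = y i`
    rw [e] at e3 e4 hp hg
    have h1 := hd.cm (x (i + 1)) (y i)
    have h2 := hd.cm (x (i + 1)) (x i)
    have h3 := hd.cm (x i) (y i)
    refine inj_cf T.dist hd (x i) (y i) (u i) (u (i + 1)) _ _ ?_ ?_ hle hge e1 e2 ?_ ?_
      (ne_of hd h i hi) ?_
    · intro k
      rw [Subgroup.mem_inf, MulAction.mem_stabilizer_iff, MulAction.mem_stabilizer_iff]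
    · intro k
      rw [Subgroup.mem_inf, MulAction.mem_stabilizer_iff, MulAction.mem_stabilizer_iff, e, e4,
        and_comm]
    · rw [e4, e3]
    · rw [e4]
      have h0 : T.dist (y i) (y i) = 0 := (hd.d0 (y i) (y i)).2 rfl
      omega
    · rw [e4]
      omega

end AdmT

section

variable {G : Type} [Group G]

open Pool.Agent.Lib.MPb6f35e.TT.ROK in
/-- The amalgam is a subgroup of `G` if `K i = K (i + 1)`. -/
theorem injE_admT {V : Type} [MulAction G V] {T : SimpleGraph V} {v w : V} {x y : ℕ → V}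
    {u : ℕ → G} (hd : TM G (V := V) T.dist) (h : AdmT T v w x y u) (i : ℕ) (hi : 1 ≤ i)
    (hle : SbT G (x (i + 1)) (y (i + 1)) ≤ SbT G (x i) (y i))
    (hge : SbT G (x i) (y i) ≤ SbT G (x (i + 1)) (y (i + 1))) :
    Function.Injective (toE (SbT G (x i) (y i)) (SbT G (x (i + 1)) (y (i + 1))) hle (u i)
      (u (i + 1))) :=
  inj_admT hd h i hi hle hge

end

end Pool.Agent.Lib.MPb6f35e.TT.AR
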