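import Pool.Agent.Lib.MP_b6f35e_al.TT.AR.Fin

/-!
# Theorem DT with good stabilizers (MP_b6f35e_al, Q2): assembly (helper76)

`GR K`: the subgroup `K` is good. For an admissible sequence with a good `K (j + 1)`, `j ≥ 1`, and without elements
of order at most two in `K j * u j`, `K (j + 1) * u (j + 1)`, no generators are needed if the nilpotent forms with these
supports are stably hyperbolic.
-/

set_option autoImplicit false
set_option linter.unusedSectionVars false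

namespace Pool.Agent.Lib.MPb6f35e.TT.AR

open Matrix Pool.Agent.Lib.MPb6f35e.TT.UV Pool.Agent.Lib.MPb6f35e.TT.RO
open Pool.Agent.Lib.MPb6f35e.TT.ROK

/-- Stably hyperbolic generators are superfluous. -/
theorem sgen_sub {A : Type} [Ring A] [StarRing A]
    {P P' : ∀ n : ℕ, Matrix (Fin n) (Fin n) A → Matrix (Fin n) (Fin n) A → Prop} {ε : ℤˣ}
    (h : ∀ n ψ χ, P n ψ χ → P' n ψ χ ∨ StablyHyperbolic ε (UF ψ 0 χ)) {ι : Type} [Fintype ι]
    [DecidableEq ι] {Ψ : Matrix ι ι A} (hΨ : SGen P ε Ψ) : SGen P' ε Ψ := by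
  have key : ∀ {κ : Type} [Fintype κ] [DecidableEq κ] {Λ : Matrix κ κ A}, FSum P Λ →
      SGen P' ε Λ := by
    intro κ _ _ Λ hΛ
    induction hΛ with
    | hyp n => exact sgen_hyp n
    | gen hp =>
      rcases h _ _ _ hp with h' | h'
      · exact sgen_gen h'
      · exact sgen_sh h'
    | sum _ _ h1 h2 => exact sgen_sum h1 h2
  obtain ⟨κ, _, _, Λ, m, h1, h2⟩ := hΨ
  exact sgen_destab m (sgen_iso h2 (key h1))

/-- The nilpotent forms with supports in a pair of `B`. -/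
def PBT {R G : Type} [Ring R] [StarRing R] [Group G] (B : Set G → Set G → Prop) (ε : ℤˣ) (n : ℕ)
    (ψ χ : Matrix (Fin n) (Fin n) (MonoidAlgebra R G)) : Prop :=
  ∃ C D : Set G, B C D ∧ SuppIn C ψ ∧ SuppIn D χ ∧
    IsNilpotent (nu ε (ψ + (ε : ℤ) • ψᴴ) 0 (χ + (ε : ℤ) • χᴴ))

/-- Theorem DT, generators with supports. -/
theorem tDB (R G V : Type) [Ring R] [StarRing R] [Group G] [MulAction G V]
    (T : SimpleGraph V) (v w : V) (hT : T.IsTree)
    (hact : ∀ (g : G) (x y : V), T.Adj x y → T.Adj (g • x) (g • y)) (hvw : T.Adj v w)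
    (hinv : ∀ g : G, ¬ (g • v = w ∧ g • w = v)) (B : Set G → Set G → Prop)
    (hB : ∀ (x y : ℕ → V) (u : ℕ → G), AdmT T v w x y u →
      ∃ i, 1 ≤ i ∧ B {a | ∃ k ∈ SbT G (x i) (y i), a = k * u i}
        {a | ∃ k ∈ SbT G (x (i + 1)) (y (i + 1)), a = k * u (i + 1)})
    (ε : ℤˣ) (n : ℕ) (ψ μ χ : Matrix (Fin n) (Fin n) (MonoidAlgebra R G))
    (hψ : SuppIn {g | g • v = v ∧ g • w ≠ w} ψ) (hμ : SuppIn {g | g • v = w} μ)
    (hχ : SuppIn {g | g • w = w ∧ g • v ≠ v} χ)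
    (hnil : IsNilpotent (nu ε (ψ + (ε : ℤ) • ψᴴ) μ (χ + (ε : ℤ) • χᴴ))) :
    SGen (fun n ψ χ => PBT B ε n ψ χ ∨ DihF ε n ψ χ) ε (UF ψ μ χ) := by
  have hd : TM G (V := V) T.dist := specFPT G V T hT hact
  let F : FCG R G :=
    { fcGen (MonoidAlgebra R G) (fun ε n ψ χ => PBT B ε n ψ χ ∨ DihF ε n ψ χ) with
      tpp := tpp_gen R G (fun ε n ψ χ => PBT B ε n ψ χ ∨ DihF ε n ψ χ) fun _ _ _ _ h => Or.inr h }
  refine mFLT R G V (fun _ => False) T v w (fun N _ x y h => h.elim) hT hact hvw hinv ?_ ε n ψ μ χ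
    hψ hμ hχ hnil
  intro x y u h1 h2 h3 h4 h5 h6
  have h0 : T.dist v w = 1 := SimpleGraph.dist_eq_one_iff_adj.2 hvw
  have hadm : AdmT (G := G) T v w (fun i => Nat.casesOn i v x) (fun i => Nat.casesOn i w y)
      (fun i => Nat.casesOn i 1 u) := by
    refine ⟨rfl, rfl, ?_, ?_, ?_, ?_, ?_⟩
    · intro i
      cases i with
      | zero =>
        show T.dist (x 0) (y 0) = T.dist (x 0) v + T.dist v w + T.dist w (y 0)
        exact h1 0
      | succ i => exact h4 i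
    · intro i
      cases i with
      | zero =>
        show T.dist v w < T.dist (x 0) (y 0)
        by_contra hc
        have h8 := h1 0
        have h9 : T.dist (x 0) v = 0 := by omega
        have h10 : T.dist w (y 0) = 0 := by omega
        have e1 : x 0 = v := (hd.d0 _ _).1 h9
        have e2 : w = y 0 := (hd.d0 _ _).1 h10
        have e3 := h2 0
        rw [e1, ← e2] at e3
        exact hinv _ e3
      | succ i => exact h5 i
    · intro i hi
      cases i with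
      | zero => exact absurd hi (by omega)
      | succ i => exact h2 i
    · intro i hi
      cases i with
      | zero => exact absurd hi (by omega)
      | succ i => exact h3 i
    · intro i hi
      cases i with
      | zero => exact absurd hi (by omega)
      | succ i => exact h6 i
  obtain ⟨i, hi1, hi⟩ := hB _ _ _ hadm
  cases i with
  | zero => exact absurd hi1 (by omega)
  | succ i =>
    refine ⟨i, Or.inr ?_⟩
    intro ε' m ψ' χ' hs1 hs2 hn
    exact sgen_gen (Or.inl ⟨_, _, hi, hs1, hs2, hn⟩)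

/-- The stabilizer `K (j + 1)` is good for the ring `R`, and there are no elements of order at most two in
`K j * u j` and `K (j + 1) * u (j + 1)`. -/
def GoodAt (R G : Type) {V : Type} [Ring R] [StarRing R] [Group G] [MulAction G V]
    (GR : Subgroup G → Prop) (x y : ℕ → V) (u : ℕ → G) (j : ℕ) : Prop :=
  GR (SbT G (x (j + 1)) (y (j + 1))) ∧
    (∀ k ∈ SbT G (x j) (y j), k * u j * (k * u j) ≠ 1) ∧
    ∀ k ∈ SbT G (x (j + 1)) (y (j + 1)), k * u (j + 1) * (k * u (j + 1)) ≠ 1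

/-- The generators of Theorem DT+. -/
def GenP (R : Type) {G V : Type} [Ring R] [StarRing R] [Group G] [MulAction G V]
    (GR : Subgroup G → Prop) (T : SimpleGraph V) (v w : V)
    (c : (ℕ → V) → (ℕ → V) → (ℕ → G) → ℕ) (ε : ℤˣ) (n : ℕ)
    (ψ χ : Matrix (Fin n) (Fin n) (MonoidAlgebra R G)) : Prop :=
  (∃ (x y : ℕ → V) (u : ℕ → G) (i : ℕ) (hle : SbT G (x (i + 1)) (y (i + 1)) ≤ SbT G (x i) (y i)),
    AdmT T v w x y u ∧ (∀ j, 1 ≤ j → ¬ GoodAt R G GR x y u j) ∧ i = c x y u ∧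
    LiftE (SbT G (x i) (y i)) (SbT G (x (i + 1)) (y (i + 1))) hle (u i) (u (i + 1)) ε n ψ χ) ∨
  DihF ε n ψ χ

/-- **Theorem DT+.** -/
theorem tDP (R G V : Type) [Ring R] [StarRing R] [Group G] [MulAction G V]
    (GR : Subgroup G → Prop)
    (T : SimpleGraph V) (v w : V) (hT : T.IsTree)
    (hact : ∀ (g : G) (x y : V), T.Adj x y → T.Adj (g • x) (g • y)) (hvw : T.Adj v w)
    (hinv : ∀ g : G, ¬ (g • v = w ∧ g • w = v)) (c : (ℕ → V) → (ℕ → V) → (ℕ → G) → ℕ)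
    (hc : ∀ (x y : ℕ → V) (u : ℕ → G), AdmT T v w x y u →
      (∀ j, 1 ≤ j → ¬ GoodAt R G GR x y u j) → 1 ≤ c x y u)
    (hLPP : ∀ (x y : ℕ → V) (u : ℕ → G) (i : ℕ), AdmT T v w x y u → 1 ≤ i →
      GoodAt R G GR x y u i →
      ∀ (ε : ℤˣ) (n : ℕ) (ψ χ : Matrix (Fin n) (Fin n) (MonoidAlgebra R G)),
      SuppIn {a | ∃ k ∈ SbT G (x i) (y i), a = k * u i} ψ →
      SuppIn {a | ∃ k ∈ SbT G (x (i + 1)) (y (i + 1)), a = k * u (i + 1)} χ →
      IsNilpotent (nu ε (ψ + (ε : ℤ) • ψᴴ) 0 (χ + (ε : ℤ) • χᴴ)) →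
      StablyHyperbolic ε (UF ψ 0 χ))
    (ε : ℤˣ) (n : ℕ) (ψ μ χ : Matrix (Fin n) (Fin n) (MonoidAlgebra R G))
    (hψ : SuppIn {g | g • v = v ∧ g • w ≠ w} ψ) (hμ : SuppIn {g | g • v = w} μ)
    (hχ : SuppIn {g | g • w = w ∧ g • v ≠ v} χ)
    (hnil : IsNilpotent (nu ε (ψ + (ε : ℤ) • ψᴴ) μ (χ + (ε : ℤ) • χᴴ))) :
    SGen (GenP R GR T v w c ε) ε (UF ψ μ χ) := by
  classical
  have hd : TM G (V := V) T.dist := specFPT G V T hT hact
  refine sgen_sub ?_ (tDB R G V T v w hT hact hvw hinv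
    (fun C D => ∃ (x y : ℕ → V) (u : ℕ → G) (i : ℕ), AdmT T v w x y u ∧ 1 ≤ i ∧
      (GoodAt R G GR x y u i ∨ ((∀ j, 1 ≤ j → ¬ GoodAt R G GR x y u j) ∧ i = c x y u)) ∧
      C = {a | ∃ k ∈ SbT G (x i) (y i), a = k * u i} ∧
      D = {a | ∃ k ∈ SbT G (x (i + 1)) (y (i + 1)), a = k * u (i + 1)}) ?_ ε n ψ μ χ hψ hμ hχ hnil)
  · rintro m ψ χ (⟨C, D, ⟨x, y, u, i, hA, hi, h1, rfl, rfl⟩, h3, h4, h5⟩ | h)
    · rcases h1 with h1 | ⟨h1, h2⟩
      · exact Or.inr (hLPP x y u i hA hi h1 ε m ψ χ h3 h4 h5)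
      · exact Or.inl (Or.inl ⟨x, y, u, i, hA.le hd i, hA, h1, h2,
          liftE_of_liftT (lift_admT hd hA i hi (hA.le hd i) ε m ψ χ h3 h4 h5)⟩)
    · exact Or.inl (Or.inr h)
  · intro x y u hA
    by_cases hb : ∀ j, 1 ≤ j → ¬ GoodAt R G GR x y u j
    · exact ⟨c x y u, hc x y u hA hb, x, y, u, c x y u, hA, hc x y u hA hb, Or.inr ⟨hb, rfl⟩,
        rfl, rfl⟩
    · push Not at hb
      obtain ⟨j, hj1, hj⟩ := hb
      exact ⟨j, hj1, x, y, u, j, hA, hj1, Or.inl hj, rfl, rfl⟩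

end Pool.Agent.Lib.MPb6f35e.TT.AR
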