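import Pool.Agent.Lib.MP_b6f35e_al.TT.A2
import Pool.Agent.Lib.MP_b6f35e_al.TT.A3
import Pool.Agent.Lib.MP_b6f35e_al.TT.AR.GEN
import Pool.Agent.Lib.MP_b6f35e_al.TT.L2

/-!
# Theorem DT (MP_b6f35e_al, Q2): the tree theorem without conditions on elements of order two (assembly: helper76,
helper73)
-/

set_option autoImplicit false
set_option linter.unusedSectionVars false

namespace Pool.Agent.Lib.MPb6f35e.TT.AR

open Matrix Pool.Agent.Lib.MPb6f35e.TT.UV Pool.Agent.Lib.MPb6f35e.TT.RO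
open Pool.Agent.Lib.MPb6f35e.TT.ROK

theorem mSGV : SpecSGV := specSGV LL2.specFAT (LL2.specIDX LL2.specUWD)

theorem mSTP : SpecSTP := specSTP mSGV

theorem mSPB : SpecSPB := specSPB mSTP

theorem mSPS : SpecSPS := specSPS mSGV mSTP mSPB

theorem mCLS : SpecCLS := specCLS mSPB mSPS

/-- The tree theorem for every class of forms. -/
theorem mFLT : SpecFLT := specFLT mCLS specCHT

/-- The generators: the images of the nilpotent forms over the group rings of the amalgams of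
`⟨K i, u i⟩` and `⟨K (i + 1), u (i + 1)⟩` over `K (i + 1)`, `i = c x y u`, and the forms of the infinite
dihedral subgroups. -/
def GenT (R : Type) {G V : Type} [Ring R] [StarRing R] [Group G] [MulAction G V]
    (T : SimpleGraph V) (v w : V) (c : (ℕ → V) → (ℕ → V) → (ℕ → G) → ℕ) (ε : ℤˣ) (n : ℕ)
    (ψ χ : Matrix (Fin n) (Fin n) (MonoidAlgebra R G)) : Prop :=
  (∃ (x y : ℕ → V) (u : ℕ → G) (i : ℕ) (hle : SbT G (x (i + 1)) (y (i + 1)) ≤ SbT G (x i) (y i)),
    AdmT T v w x y u ∧ i = c x y u ∧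
    LiftT (SbT G (x i) (y i)) (SbT G (x (i + 1)) (y (i + 1))) hle (u i) (u (i + 1)) ε n ψ χ) ∨
  DihF ε n ψ χ

section Mono

variable {A : Type} [Ring A] [StarRing A]

theorem FSum.mono {P Q : ∀ n : ℕ, Matrix (Fin n) (Fin n) A → Matrix (Fin n) (Fin n) A → Prop}
    (hPQ : ∀ n ψ χ, P n ψ χ → Q n ψ χ) {ι : Type} [Fintype ι] [DecidableEq ι] {Ψ : Matrix ι ι A}
    (h : FSum P Ψ) : FSum Q Ψ := by
  induction h with
  | hyp n => exact FSum.hyp n
  | gen h => exact FSum.gen (hPQ _ _ _ h)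
  | sum _ _ h1 h2 => exact FSum.sum h1 h2

theorem sgen_mono {P Q : ∀ n : ℕ, Matrix (Fin n) (Fin n) A → Matrix (Fin n) (Fin n) A → Prop}
    (hPQ : ∀ n ψ χ, P n ψ χ → Q n ψ χ) {ε : ℤˣ} {ι : Type} [Fintype ι] [DecidableEq ι]
    {Ψ : Matrix ι ι A} (h : SGen P ε Ψ) : SGen Q ε Ψ := by
  obtain ⟨κ, _, _, Λ, m, h1, h2⟩ := h
  exact ⟨κ, inferInstance, inferInstance, Λ, m, h1.mono hPQ, h2⟩

end Mono

/-- The class of forms which is generated by the forms `UF ψ 0 χ` with `P ε n ψ χ`. -/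
@[reducible] def fcGen (A : Type) [Ring A] [StarRing A]
    (P : ℤˣ → ∀ n : ℕ, Matrix (Fin n) (Fin n) A → Matrix (Fin n) (Fin n) A → Prop) : FC A where
  S := fun ε _ _ _ Ψ => SGen (P ε) ε Ψ
  iso := fun h h' => sgen_iso h h'
  hyp := fun _ n => sgen_hyp n
  sum := fun h h' => sgen_sum h h'
  destab := fun n h => sgen_destab n h

/-- The class of a generating set which contains the forms `DihF`. -/
theorem tpp_gen (R G : Type) [Ring R] [StarRing R] [Group G]
    (P : ℤˣ → ∀ n : ℕ, Matrix (Fin n) (Fin n) (MonoidAlgebra R G) →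
      Matrix (Fin n) (Fin n) (MonoidAlgebra R G) → Prop)
    (hP : ∀ (ε : ℤˣ) (n : ℕ) (ψ χ : Matrix (Fin n) (Fin n) (MonoidAlgebra R G)),
      DihF ε n ψ χ → P ε n ψ χ) :
    ∀ (L : Subgroup G) (X1 X2 Yp Ym : Set G), PPK L X1 X2 ∅ Yp Ym →
    ∀ (ε : ℤˣ) (n : ℕ) (ψ M : Matrix (Fin n) (Fin n) (MonoidAlgebra R G)), SuppIn X1 ψ →
      SuppIn X2 M → M + (ε : ℤ) • Mᴴ = 0 → SGen (P ε) ε (UF ψ 0 M) := by
  let F : FC (MonoidAlgebra R G) := fcGen (MonoidAlgebra R G) P
  exact mTPP R G (fun ε r s t u h1 h2 h3 h4 h5 =>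
    sgen_gen (hP ε _ _ _ (DihF.mk r s t u h1 h2 h3 h4 h5)))

/-- **Theorem DT.** -/
theorem tDT (R G V : Type) [Ring R] [StarRing R] [Group G] [MulAction G V]
    (T : SimpleGraph V) (v w : V) (hT : T.IsTree)
    (hact : ∀ (g : G) (x y : V), T.Adj x y → T.Adj (g • x) (g • y)) (hvw : T.Adj v w)
    (hinv : ∀ g : G, ¬ (g • v = w ∧ g • w = v)) (c : (ℕ → V) → (ℕ → V) → (ℕ → G) → ℕ)
    (hc : ∀ (x y : ℕ → V) (u : ℕ → G), AdmT T v w x y u → 1 ≤ c x y u)
    (ε : ℤˣ) (n : ℕ) (ψ μ χ : Matrix (Fin n) (Fin n) (MonoidAlgebra R G))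
    (hψ : SuppIn {g | g • v = v ∧ g • w ≠ w} ψ) (hμ : SuppIn {g | g • v = w} μ)
    (hχ : SuppIn {g | g • w = w ∧ g • v ≠ v} χ)
    (hnil : IsNilpotent (nu ε (ψ + (ε : ℤ) • ψᴴ) μ (χ + (ε : ℤ) • χᴴ))) :
    SGen (GenT R T v w c ε) ε (UF ψ μ χ) := by
  have hd : TM G (V := V) T.dist := specFPT G V T hT hact
  let F : FCG R G :=
    { fcGen (MonoidAlgebra R G) (fun ε n ψ χ => GenT R T v w c ε n ψ χ) with
      tpp := tpp_gen R G (fun ε n ψ χ => GenT R T v w c ε n ψ χ) fun _ _ _ _ h => Or.inr h }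
  refine mFLT R G V (fun _ => False) T v w (fun N _ x y h => h.elim) hT hact hvw hinv ?_ ε n ψ μ χ
    hψ hμ hχ hnil
  intro x y u h1 h2 h3 h4 h5 h6
  have h0 : T.dist v w = 1 := SimpleGraph.dist_eq_one_iff_adj.2 hvw
  have hadm : AdmT (G := G) T v w (fun i => Nat.casesOn i v x) (fun i => Nat.casesOn i w y)
      (fun i => Nat.casesOn i 1 u) := by
    refine ⟨rfl, rfl, ?_, ?_, ?_, ?_, ?_⟩
    · intro i
      cases i with
      | zero =>
        show T.dist (x 0) (y 0) = T.dist (x 0) v + T.dist v w + T.dist w (y 0)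
        exact h1 0
      | succ i => exact h4 i
    · intro i
      cases i with
      | zero =>
        show T.dist v w < T.dist (x 0) (y 0)
        by_contra hc
        have h8 := h1 0
        have h9 : T.dist (x 0) v = 0 := by omega
        have h10 : T.dist w (y 0) = 0 := by omega
        have e1 : x 0 = v := (hd.d0 _ _).1 h9
        have e2 : w = y 0 := (hd.d0 _ _).1 h10
        have e3 := h2 0
        rw [e1, ← e2] at e3
        exact hinv _ e3
      | succ i => exact h5 i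
    · intro i hi
      cases i with
      | zero => exact absurd hi (by omega)
      | succ i => exact h2 i
    · intro i hi
      cases i with
      | zero => exact absurd hi (by omega)
      | succ i => exact h3 i
    · intro i hi
      cases i with
      | zero => exact absurd hi (by omega)
      | succ i => exact h6 i
  have hi1 := hc _ _ _ hadm
  obtain ⟨i, hi⟩ : ∃ i, c (fun i => Nat.casesOn i v x) (fun i => Nat.casesOn i w y)
      (fun i => Nat.casesOn i 1 u) = i + 1 := ⟨_, (Nat.sub_add_cancel hi1).symm⟩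
  refine ⟨i, Or.inr ?_⟩
  intro ε' m ψ' χ' hs1 hs2 hn
  refine sgen_gen (Or.inl ⟨_, _, _, i + 1, hadm.le hd (i + 1), hadm, hi.symm, ?_⟩)
  exact lift_admT hd hadm (i + 1) (Nat.succ_le_succ (Nat.zero_le i)) (hadm.le hd (i + 1)) ε' m ψ' χ'
    hs1 hs2 hn

end Pool.Agent.Lib.MPb6f35e.TT.AR
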